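import Mathlib

/-! MP_be9f3f_co: every finite connected (reflexive) graph is a confluent image of a finite
connected vertex-transitive graph. -/

namespace Pool.Agent.Results.MP_be9f3f_co.Confluent

universe u

/-- A reflexive symmetric graph on the vertex type `V`. -/
structure RGraph (V : Type u) where
  /-- edge relation -/
  E : V → V → Prop
  refl : ∀ a, E a a
  symm : ∀ a b, E a b → E b a

/-- `S` is connected: it is not the union of two nonempty parts with no edge between them. -/
def IsConn {V : Type u} (G : RGraph V) (S : Set V) : Prop :=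
  ¬ ∃ P Q : Set V, P.Nonempty ∧ Q.Nonempty ∧ P ∪ Q = S ∧ ∀ p ∈ P, ∀ q ∈ Q, ¬ G.E p q

/-- `C` is a component of `S`: a maximal connected subset of `S`. -/
def IsComponent {V : Type u} (G : RGraph V) (S C : Set V) : Prop :=
  C ⊆ S ∧ IsConn G C ∧ ∀ D : Set V, D ⊆ S → IsConn G D → C ⊆ D → D = C

/-- An epimorphism: a homomorphism surjective on vertices and on edges. -/
def IsEpi {W V : Type u} (G : RGraph W) (H : RGraph V) (f : W → V) : Prop :=
  (∀ a b, G.E a b → H.E (f a) (f b)) ∧ Function.Surjective f ∧
    ∀ a b, H.E a b → ∃ x y, G.E x y ∧ f x = a ∧ f y = b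

/-- A confluent epimorphism. -/
def IsConfluentEpi {W V : Type u} (G : RGraph W) (H : RGraph V) (f : W → V) : Prop :=
  IsEpi G H f ∧ ∀ Q : Set V, IsConn H Q → ∀ C : Set W, IsComponent G (f ⁻¹' Q) C → f '' C = Q

/-- `G` is homogeneous (vertex-transitive): any vertex is sent to any other one by an
automorphism (an injective epimorphism of `G` to itself). -/
def IsHomogeneous {W : Type u} (G : RGraph W) : Prop :=
  ∀ x y : W, ∃ s : W → W, (Function.Injective s ∧ IsEpi G G s) ∧ s x = y

section aux

variable {V : Type u} (H : RGraph V)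

open Classical in
/-- The graph on permutations of `V`. -/
noncomputable def permGraph (a0 : V) : RGraph (Equiv.Perm V) where
  E g g' := ∃ a b, H.E a b ∧ g' = Equiv.swap a b * g
  refl g := ⟨a0, a0, H.refl a0, by simp [← Equiv.Perm.one_def]⟩
  symm := by
    rintro g g' ⟨a, b, h, rfl⟩
    exact ⟨a, b, h, by rw [← mul_assoc, Equiv.swap_mul_self, one_mul]⟩

/-- adding a neighbour keeps connectedness -/
theorem conn_insert {W : Type u} (G : RGraph W) (C : Set W) (hC : IsConn G C) (c d : W)
    (hc : c ∈ C) (h : G.E c d) : IsConn G (insert d C) := by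
  rintro ⟨P, Q, hP, hQ, hPQ, hE⟩
  have hno : ∀ x ∈ P, x ∈ Q → False := fun x hx hx' => hE x hx x hx' (G.refl x)
  have hcPQ : c ∈ P ∪ Q := hPQ ▸ Or.inr hc
  have hdPQ : d ∈ P ∪ Q := hPQ ▸ Or.inl rfl
  -- the splitting `P ∩ C`, `Q ∩ C` of `C`
  have key : ∀ P' Q' : Set W, P'.Nonempty → Q'.Nonempty → P' ∪ Q' = insert d C →
      (∀ p ∈ P', ∀ q ∈ Q', ¬ G.E p q) → c ∈ P' → False := by
    intro P' Q' hP' hQ' hPQ' hE' hcP'
    have hdP' : d ∈ P' := by
      have : d ∈ P' ∪ Q' := hPQ' ▸ Or.inl rfl
      rcases this with h1 | h1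
      · exact h1
      · exact absurd h (hE' c hcP' d h1)
    apply hC
    refine ⟨P' ∩ C, Q', ⟨c, hcP', hc⟩, hQ', ?_, fun p hp q hq => hE' p hp.1 q hq⟩
    ext x
    constructor
    · rintro (hx | hx)
      · exact hx.2
      · have : x ∈ insert d C := hPQ' ▸ Or.inr hx
        rcases this with rfl | h1
        · exact absurd (G.refl x) (hE' x hdP' x hx)
        · exact h1
    · intro hx
      have : x ∈ P' ∪ Q' := hPQ' ▸ Or.inr hx
      rcases this with h1 | h1
      · exact Or.inl ⟨h1, hx⟩
      · exact Or.inr h1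
  rcases hcPQ with h1 | h1
  · exact key P Q hP hQ hPQ hE h1
  · exact key Q P hQ hP (by rw [Set.union_comm, hPQ])
      (fun p hp q hq h' => hE q hq p hp (G.symm _ _ h')) h1

/-- Lifting criterion for confluence. -/
theorem confluent_of_lift {W : Type u} (G : RGraph W) (f : W → V)
    (hf : IsEpi G H f)
    (hl : ∀ x b, H.E (f x) b → ∃ y, G.E x y ∧ f y = b) : IsConfluentEpi G H f := by
  refine ⟨hf, fun Q hQ C hC => ?_⟩
  obtain ⟨hCs, hCc, hCm⟩ := hC
  have hsub : f '' C ⊆ Q := by
    rintro _ ⟨x, hx, rfl⟩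
    exact hCs hx
  by_contra hne
  have hne' : (Q \ f '' C).Nonempty := by
    by_contra h
    rw [Set.not_nonempty_iff_eq_empty, Set.sdiff_eq_empty] at h
    exact hne (Set.Subset.antisymm hsub h)
  by_cases hCe : (f '' C).Nonempty
  · apply hQ
    refine ⟨f '' C, Q \ f '' C, hCe, hne', Set.union_sdiff_cancel hsub, ?_⟩
    rintro _ ⟨x, hx, rfl⟩ b ⟨hb, hb'⟩ hE
    obtain ⟨y, hy, rfl⟩ := hl x b hE
    have hins := conn_insert G C hCc x y hx hy
    have := hCm (insert y C) (Set.insert_subset hb hCs) hins (Set.subset_insert y C)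
    exact hb' ⟨y, this ▸ Or.inl rfl, rfl⟩
  · obtain ⟨b, hb, -⟩ := hne'
    obtain ⟨y, rfl⟩ := hf.2.1 b
    have hC0 : C = ∅ := by
      by_contra h
      exact hCe ((Set.nonempty_iff_ne_empty.2 h).image f)
    have hs : IsConn G {y} := by
      rintro ⟨P, R, ⟨p, hp⟩, ⟨r, hr⟩, hPR, hE⟩
      have h1 : p = y := by
        have : p ∈ ({y} : Set W) := hPR ▸ Or.inl hp
        exact this
      have h2 : r = y := by
        have : r ∈ ({y} : Set W) := hPR ▸ Or.inr hr
        exact this
      subst h1
      subst h2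
      exact hE _ hp _ hr (G.refl _)
    have := hCm {y} (by intro z hz; rw [Set.mem_singleton_iff] at hz; subst hz; exact hb) hs
      (by rw [hC0]; exact Set.empty_subset _)
    rw [hC0] at this
    exact (Set.singleton_ne_empty y) this

theorem reach_of_conn (hH : IsConn H Set.univ) (a b : V) : Relation.ReflTransGen H.E a b := by
  by_contra hab
  apply hH
  refine ⟨{x | Relation.ReflTransGen H.E a x}, {x | ¬ Relation.ReflTransGen H.E a x},
    ⟨a, Relation.ReflTransGen.refl⟩, ⟨b, hab⟩, ?_, ?_⟩
  · ext x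
    simp [em]
  · intro p hp q hq h
    exact hq (Relation.ReflTransGen.tail hp h)

end aux

theorem result (V : Type u) [Finite V] (H : RGraph V) (hH : IsConn H Set.univ) :
    ∃ (W : Type u) (_ : Finite W) (G : RGraph W) (f : W → V),
      IsConn G Set.univ ∧ IsHomogeneous G ∧ IsConfluentEpi G H f := by
  classical
  rcases isEmpty_or_nonempty V with hV | ⟨⟨a0⟩⟩
  · refine ⟨V, inferInstance, H, id, hH, fun x => (hV.false x).elim, ⟨?_, ?_, ?_⟩, ?_⟩
    · exact fun a b h => h
    · exact Function.surjective_id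
    · exact fun a => (hV.false a).elim
    · intro Q _ C _
      ext x
      exact (hV.false x).elim
  · refine ⟨Equiv.Perm V, inferInstance, permGraph H a0, fun g => g a0, ?_, ?_, ?_⟩
    · rintro ⟨P, Q, ⟨p, hp⟩, ⟨q, hq⟩, hPQ, hE⟩
      set S : Set (Equiv.Perm V) := {s | ∃ a b, a ≠ b ∧ H.E a b ∧ s = Equiv.swap a b} with hS
      have hSw : ∀ s ∈ S, s.IsSwap := by
        rintro _ ⟨a, b, hab, -, rfl⟩
        exact ⟨a, b, hab, rfl⟩
      have htr : MulAction.IsPretransitive (Subgroup.closure S) V := by
        constructor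
        intro x y
        have hxy := reach_of_conn H hH x y
        induction hxy with
        | refl => exact ⟨1, one_smul _ _⟩
        | @tail b c _ hbc ih =>
          obtain ⟨g, hg⟩ := ih
          by_cases h : b = c
          · exact ⟨g, by rw [hg, h]⟩
          · refine ⟨⟨Equiv.swap b c, Subgroup.subset_closure ⟨b, c, h, hbc, rfl⟩⟩ * g, ?_⟩
            rw [mul_smul, hg]
            change Equiv.swap b c b = c
            exact Equiv.swap_apply_left b c
      have htop := closure_of_isSwap_of_isPretransitive hSw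
      have hmem : q * p⁻¹ ∈ Subgroup.closure S := by
        rw [htop]
        exact Subgroup.mem_top _
      have hall : ∀ g ∈ Subgroup.closure S, ∀ x, x ∈ P ↔ g * x ∈ P := by
        intro g hg
        induction hg using Subgroup.closure_induction with
        | mem s hs =>
          obtain ⟨a, b, hab, hEab, rfl⟩ := hs
          have h1 : ∀ x, x ∈ P → Equiv.swap a b * x ∈ P := by
            intro x hx
            have : Equiv.swap a b * x ∈ P ∪ Q := hPQ ▸ Set.mem_univ _
            rcases this with h | h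
            · exact h
            · exact absurd ⟨a, b, hEab, rfl⟩ (hE x hx _ h)
          intro x
          refine ⟨h1 x, fun h => ?_⟩
          have := h1 _ h
          rwa [← mul_assoc, Equiv.swap_mul_self, one_mul] at this
        | one => intro x; rw [one_mul]
        | mul g h _ _ ihg ihh =>
          intro x
          rw [ihh x, ihg (h * x), mul_assoc]
        | inv g _ ih =>
          intro x
          rw [ih (g⁻¹ * x), mul_inv_cancel_left]
      have h2 := (hall _ hmem p).1 hp
      rw [inv_mul_cancel_right] at h2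
      exact hE q h2 q hq ((permGraph H a0).refl q)
    · intro x y
      refine ⟨fun g => g * (x⁻¹ * y), ⟨fun g h hgh => mul_right_cancel hgh, ?_, ?_, ?_⟩, ?_⟩
      · rintro g _ ⟨a, b, h, rfl⟩
        exact ⟨a, b, h, mul_assoc _ _ _⟩
      · intro g
        exact ⟨g * (x⁻¹ * y)⁻¹, inv_mul_cancel_right _ _⟩
      · rintro g _ ⟨a, b, h, rfl⟩
        exact ⟨g * (x⁻¹ * y)⁻¹, Equiv.swap a b * g * (x⁻¹ * y)⁻¹,
          ⟨a, b, h, by rw [mul_assoc]⟩, inv_mul_cancel_right _ _, inv_mul_cancel_right _ _⟩
      · simp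
    · apply confluent_of_lift
      · refine ⟨?_, ?_, ?_⟩
        · rintro g _ ⟨a, b, h, rfl⟩
          simp only [Equiv.Perm.mul_apply]
          by_cases h1 : g a0 = a
          · rw [h1, Equiv.swap_apply_left]; exact h
          · by_cases h2 : g a0 = b
            · rw [h2, Equiv.swap_apply_right]; exact H.symm _ _ h
            · rw [Equiv.swap_apply_of_ne_of_ne h1 h2]; exact H.refl _
        · intro b
          exact ⟨Equiv.swap a0 b, Equiv.swap_apply_left a0 b⟩
        · intro a b h
          refine ⟨Equiv.swap a0 a, Equiv.swap a b * Equiv.swap a0 a, ⟨a, b, h, rfl⟩,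
            Equiv.swap_apply_left a0 a, ?_⟩
          simp
      · intro g b h
        refine ⟨Equiv.swap (g a0) b * g, ⟨g a0, b, h, rfl⟩, ?_⟩
        simp

end Pool.Agent.Results.MP_be9f3f_co.Confluent
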